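import Mathlib
import Pool.Agent.W890.SF.Stm2

/-! Project SAM (helper890), part LIM: two limits. -/

set_option autoImplicit false

namespace Pool.Agent.W287.SAM

open Finset Filter Topology
open Pool.Agent.W890.SF (S_LIM)

theorem sub_div (a : ℕ → ℕ) (c : ℝ)
    (ha : Tendsto (fun n : ℕ => (a n : ℝ) / (n : ℝ)) atTop (𝓝 c)) (i : ℕ) :
    Tendsto (fun n : ℕ => ((a n - i : ℕ) : ℝ) / (n : ℝ)) atTop (𝓝 c) := by
  have h1 : Tendsto (fun n : ℕ => (a n : ℝ) / (n : ℝ) - (i : ℝ) / (n : ℝ)) atTop (𝓝 (c - 0)) :=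
    ha.sub (tendsto_const_div_atTop_nhds_zero_nat (i : ℝ))
  rw [sub_zero] at h1
  refine tendsto_of_tendsto_of_tendsto_of_le_of_le h1 ha ?_ ?_
  · intro n
    show (a n : ℝ) / (n : ℝ) - (i : ℝ) / (n : ℝ) ≤ ((a n - i : ℕ) : ℝ) / (n : ℝ)
    rw [← _root_.sub_div]
    apply div_le_div_of_nonneg_right _ (Nat.cast_nonneg n)
    rw [sub_le_iff_le_add]
    exact_mod_cast (Nat.sub_le_iff_le_add.1 (le_refl (a n - i)))
  · intro n
    show ((a n - i : ℕ) : ℝ) / (n : ℝ) ≤ (a n : ℝ) / (n : ℝ)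
    apply div_le_div_of_nonneg_right _ (Nat.cast_nonneg n)
    exact_mod_cast Nat.sub_le _ _

theorem id_div : Tendsto (fun n : ℕ => ((id n : ℕ) : ℝ) / (n : ℝ)) atTop (𝓝 1) := by
  refine Tendsto.congr' ?_ tendsto_const_nhds
  filter_upwards [eventually_ge_atTop 1] with n hn
  have h : (n : ℝ) ≠ 0 := by positivity
  simp [h]

theorem choose_ratio (k : ℕ) (a : ℕ → ℕ) (c : ℝ)
    (ha : Tendsto (fun n : ℕ => (a n : ℝ) / (n : ℝ)) atTop (𝓝 c)) :
    Tendsto (fun n : ℕ => ((a n).choose k : ℝ) / (n.choose k : ℝ)) atTop (𝓝 (c ^ k)) := by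
  have h1 : ∀ i ∈ range k, Tendsto (fun n : ℕ => ((a n - i : ℕ) : ℝ) / ((n - i : ℕ) : ℝ)) atTop
      (𝓝 c) := by
    intro i _
    have h2 := (sub_div a c ha i).div (sub_div id 1 id_div i) one_ne_zero
    rw [div_one] at h2
    refine Tendsto.congr' ?_ h2
    filter_upwards [eventually_ge_atTop 1] with n hn
    have h : (n : ℝ) ≠ 0 := by positivity
    show ((a n - i : ℕ) : ℝ) / (n : ℝ) / (((id n - i : ℕ) : ℝ) / (n : ℝ)) =
      ((a n - i : ℕ) : ℝ) / ((n - i : ℕ) : ℝ)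
    rw [div_div_div_cancel_right₀ h]
    rfl
  have h3 := tendsto_finsetProd (range k) h1
  rw [Finset.prod_const, Finset.card_range] at h3
  refine Tendsto.congr ?_ h3
  intro n
  have h4 : ∀ m : ℕ, (m.choose k : ℝ) = (∏ i ∈ range k, ((m - i : ℕ) : ℝ)) / (k.factorial : ℝ) := by
    intro m
    have h5 : (m.descFactorial k : ℝ) = (k.factorial : ℝ) * (m.choose k : ℝ) := by
      exact_mod_cast Nat.descFactorial_eq_factorial_mul_choose m k
    have h6 : (m.descFactorial k : ℝ) = ∏ i ∈ range k, ((m - i : ℕ) : ℝ) := by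
      rw [Nat.descFactorial_eq_prod_range]
      push_cast
      rfl
    have h7 : (k.factorial : ℝ) ≠ 0 := by exact_mod_cast Nat.factorial_ne_zero k
    rw [← h6, h5, mul_div_cancel_left₀ _ h7]
  have h7 : (k.factorial : ℝ) ≠ 0 := by exact_mod_cast Nat.factorial_ne_zero k
  rw [h4 (a n), h4 n, div_div_div_cancel_right₀ h7, Finset.prod_div_distrib]

theorem floor_div (x : ℝ) (hx : 0 ≤ x) :
    Tendsto (fun n : ℕ => ((⌊x * (n : ℝ)⌋₊ : ℕ) : ℝ) / (n : ℝ)) atTop (𝓝 x) :=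
  (tendsto_nat_floor_mul_div_atTop hx).comp tendsto_natCast_atTop_atTop

theorem lim : S_LIM := by
  intro k hk x hx hx1
  have hfl := floor_div x hx.le
  refine ⟨?_, ?_⟩
  · have h1 : Tendsto (fun n : ℕ => ((n - ⌊x * (n : ℝ)⌋₊ : ℕ) : ℝ) / (n : ℝ)) atTop
        (𝓝 (1 - x)) := by
      have h2 := id_div.sub hfl
      refine Tendsto.congr ?_ h2
      intro n
      have h3 : ⌊x * (n : ℝ)⌋₊ ≤ n := by
        apply Nat.floor_le_of_le
        have : (0 : ℝ) ≤ n := Nat.cast_nonneg n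
        nlinarith
      rw [Nat.cast_sub h3, _root_.sub_div]
      rfl
    have h2 := choose_ratio k (fun n => n - ⌊x * (n : ℝ)⌋₊) (1 - x) h1
    have h3 : Tendsto (fun n : ℕ => 1 - ((n - ⌊x * (n : ℝ)⌋₊).choose k : ℝ) / (n.choose k : ℝ))
        atTop (𝓝 (1 - (1 - x) ^ k)) := h2.const_sub 1
    refine Tendsto.congr' ?_ h3
    filter_upwards [eventually_ge_atTop k] with n hn
    have h4 : (n - ⌊x * (n : ℝ)⌋₊).choose k ≤ n.choose k := Nat.choose_le_choose k (Nat.sub_le _ _)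
    have h5 : ((n.choose k : ℕ) : ℝ) ≠ 0 := by
      exact_mod_cast (Nat.choose_pos hn).ne'
    rw [Nat.cast_sub h4, _root_.sub_div, div_self h5]
  · intro _
    have h1 : Tendsto (fun n : ℕ => ((k * (⌊x * (n : ℝ)⌋₊ + 1) - 1 : ℕ) : ℝ) / (n : ℝ)) atTop
        (𝓝 (k * x)) := by
      have h2 : Tendsto (fun n : ℕ => (k : ℝ) * (((⌊x * (n : ℝ)⌋₊ : ℕ) : ℝ) / (n : ℝ)) +
          ((k : ℝ) - 1) / (n : ℝ)) atTop (𝓝 ((k : ℝ) * x + 0)) :=
        (hfl.const_mul (k : ℝ)).add (tendsto_const_div_atTop_nhds_zero_nat _)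
      rw [add_zero] at h2
      refine Tendsto.congr ?_ h2
      intro n
      have h3 : 1 ≤ k * (⌊x * (n : ℝ)⌋₊ + 1) := Nat.mul_pos hk (Nat.succ_pos _)
      rw [Nat.cast_sub h3]
      push_cast
      ring
    exact choose_ratio k (fun n => k * (⌊x * (n : ℝ)⌋₊ + 1) - 1) (k * x) h1

end Pool.Agent.W287.SAM
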